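import Pool.Agent.H345R2.A4.Fin

/-!
# The pair correlation function in almost all short intervals

Assume the Riemann hypothesis and fix `0 < η < 1`, `0 < μ < (1 + η)/2`.  For every
`T ^ η ≤ H ≤ T / 8` and all `t ∈ [T, 2T]` outside a set of measure `T ^ (1 - κ)`, the pair
correlation function of the ordinates in `(t, t + H]` satisfies Montgomery's asymptotic formula
uniformly for `|α| ≤ μ` (Gaussian weight), and its averages over windows around an arbitrary real
`b` are bounded above and below (weight `4 / (4 + u²)`).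
-/

open Filter Topology Complex MeasureTheory

namespace Pool.Agent.Results.MP_00e05b_nt.AlmostAllShort

/-- the nontrivial zeros of zeta with ordinate in `(a, b]` -/
def zeros (a b : ℝ) : Set ℂ :=
  {s : ℂ | riemannZeta s = 0 ∧ 0 < s.re ∧ s.re < 1 ∧ a < s.im ∧ s.im ≤ b}

/-- the multiplicity of a zero -/
noncomputable def m (s : ℂ) : ℝ := (analyticOrderNatAt riemannZeta s : ℝ)

/-- the sum of `f (γ - γ')` over the ordered pairs of ordinates of zeros in `(a, b]`, counted
with multiplicity (the diagonal pairs are included) -/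
noncomputable def pairs (a b : ℝ) (f : ℝ → ℝ) : ℝ :=
  ∑ᶠ s ∈ zeros a b, ∑ᶠ s' ∈ zeros a b, m s * m s' * f (s.im - s'.im)

/-- the pair correlation function, with weight `w`, of the ordinates in `(t, t + H]`; here
`cos (α (γ - γ') log T)` is the real part of `T ^ (i α (γ - γ'))` -/
noncomputable def F (w : ℝ → ℝ) (t H T α : ℝ) : ℝ :=
  (H * Real.log T / (2 * Real.pi))⁻¹ *
    pairs t (t + H) (fun d => Real.cos (α * d * Real.log T) * w d)

/-- Montgomery's weight `4 / (4 + u²)` -/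
noncomputable def wM (u : ℝ) : ℝ := 4 / (4 + u ^ 2)

/-- the Gaussian weight `exp (-u² / 4)` -/
noncomputable def wG (u : ℝ) : ℝ := Real.exp (-u ^ 2 / 4)

lemma zeros_eq (T₁ T₂ : ℝ) : zeros T₁ T₂ = H370.zset riemannZeta T₁ T₂ := by
  ext s
  simp only [zeros, H370.zset, Set.mem_ofPred_eq]
  tauto

/-- the sets of zeros that are summed over are finite -/
theorem zeros_finite (T₁ T₂ : ℝ) (h : 0 < T₁) : (zeros T₁ T₂).Finite := by
  rw [zeros_eq]
  exact H370.zset_finite' H370.good_zeta T₁ T₂ h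

lemma pairs_eq (a b : ℝ) (f : ℝ → ℝ) (ha : 1 ≤ a) :
    pairs a b f = ∑ s ∈ H370.Zf riemannZeta a b, ∑ s' ∈ H370.Zf riemannZeta a b,
      (H370.mult riemannZeta s : ℝ) * (H370.mult riemannZeta s' : ℝ) * f (s.im - s'.im) := by
  unfold pairs
  rw [zeros_eq, H370.finsum_Zf H370.good_zeta ha]
  refine Finset.sum_congr rfl fun s _ => ?_
  rw [H370.finsum_Zf H370.good_zeta ha]
  rfl

lemma FG_eq (hRH : RiemannHypothesis) (t H T α : ℝ) (ht : 1 ≤ t) :
    F wG t H T α = (H * Real.log T / (2 * Real.pi))⁻¹ *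
      H370.A2.JN riemannZeta t (t + H) (α * Real.log T) := by
  unfold F wG
  rw [pairs_eq _ _ _ ht, H370.A2.JN_rh hRH ht]
  congr 1
  refine Finset.sum_congr rfl fun s _ => Finset.sum_congr rfl fun s' _ => ?_
  rw [show α * Real.log T * (s.im - s'.im) = α * (s.im - s'.im) * Real.log T by ring]

lemma FM_eq (t H T α : ℝ) (ht : 1 ≤ t) :
    F wM t H T α = (H * Real.log T / (2 * Real.pi))⁻¹ *
      H370.A4.FW t (t + H) (Real.log T) α := by
  unfold F wM H370.A4.FW
  rw [pairs_eq _ _ _ ht]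
  congr 1
  refine Finset.sum_congr rfl fun s _ => Finset.sum_congr rfl fun s' _ => ?_
  rw [show α * (Real.log T * (s.im - s'.im)) = α * (s.im - s'.im) * Real.log T by ring]

theorem result (hRH : RiemannHypothesis) :
    ∀ η μ ε : ℝ, 0 < η → η < 1 → 0 < μ → μ < (1 + η) / 2 → 0 < ε →
      ∃ κ : ℝ, 0 < κ ∧ ∃ T₀ : ℝ, ∀ T : ℝ, T₀ ≤ T → ∀ H : ℝ, T ^ η ≤ H → H ≤ T / 8 →
      volume {t : ℝ | T ≤ t ∧ t ≤ 2 * T ∧
        ¬ ((∀ α : ℝ, |α| ≤ μ →
            |F wG t H T α - (Real.log T / Real.sqrt Real.pi * Real.exp (-(α * Real.log T) ^ 2) +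
              |α|)| ≤ ε * (1 + Real.log T * Real.exp (-(α * Real.log T) ^ 2))) ∧
          ∀ b : ℝ, 2 * μ - 1 - μ ^ 2 / 3 - ε ≤
              ∫ α in (b - μ)..(b + μ), (1 - |α - b| / μ) * F wM t H T α ∧
            ∫ α in (b - μ)..(b + μ), (1 - |α - b| / μ) * F wM t H T α ≤ 1 + μ ^ 2 / 3 + ε)} ≤
        ENNReal.ofReal (T ^ (1 - κ)) := by
  intro η μ ε hη0 hη1 hμ hμη hε
  obtain ⟨δ, hδ, T0, hT0, h⟩ := H370.A4.almost_F hRH η μ ε hη0 hη1 hμ (by linarith) hε
  refine ⟨δ, hδ, T0, fun T hT H hH1 hH2 => (measure_mono ?_).trans (h T hT H hH1 hH2)⟩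
  rintro t ⟨ht1, ht2, ht3⟩
  refine ⟨⟨ht1, ht2⟩, fun hcon => ht3 ?_⟩
  obtain ⟨g1, g2⟩ := hcon
  have hTpos : 0 < T := by linarith
  have hL : 0 < Real.log T := Real.log_pos (by linarith)
  have hHpos : 0 < H := lt_of_lt_of_le (Real.rpow_pos_of_pos hTpos _) hH1
  set N : ℝ := H * Real.log T / (2 * Real.pi) with hN
  have hN0 : 0 < N := by have := Real.pi_pos; positivity
  refine ⟨fun α hα => ?_, fun b => ?_⟩
  · have h1 := g1 α hα
    rw [FG_eq hRH t H T α (by linarith), ← hN]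
    have e : N⁻¹ * H370.A2.JN riemannZeta t (t + H) (α * Real.log T) -
        (Real.log T / Real.sqrt Real.pi * Real.exp (-(α * Real.log T) ^ 2) + |α|) =
        N⁻¹ * (H370.A2.JN riemannZeta t (t + H) (α * Real.log T) -
        N * (Real.log T * Real.exp (-(α * Real.log T) ^ 2) / Real.sqrt Real.pi + |α|)) := by
      rw [mul_sub, inv_mul_cancel_left₀ hN0.ne']
      ring
    rw [e, abs_mul, abs_of_pos (inv_pos.2 hN0), inv_mul_le_iff₀ hN0]
    refine h1.trans (le_of_eq ?_)
    ring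
  · obtain ⟨h1, h2⟩ := g2 b
    have e : ∫ α in (b - μ)..(b + μ), (1 - |α - b| / μ) * F wM t H T α =
        N⁻¹ * ∫ α in (b - μ)..(b + μ), (1 - |α - b| / μ) *
          H370.A4.FW t (t + H) (Real.log T) α := by
      rw [← intervalIntegral.integral_const_mul]
      refine intervalIntegral.integral_congr fun α _ => ?_
      show (1 - |α - b| / μ) * F wM t H T α = _
      rw [FM_eq t H T α (by linarith), ← hN]
      ring
    rw [e]
    constructor
    · rw [le_inv_mul_iff₀ hN0]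
      exact h1
    · rw [inv_mul_le_iff₀ hN0]
      exact h2

end Pool.Agent.Results.MP_00e05b_nt.AlmostAllShort
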