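import Pool.Agent.H332B.Avg
import Pool.Agent.H332B.WPC

open Complex MeasureTheory

namespace Pool.Agent.Results.MP_00e05b_nt.LongAverages

/-- the nontrivial zeros of `ζ` with ordinate in `(0, T]` -/
def zeros (T : ℝ) : Set ℂ :=
  {s : ℂ | 0 < s.re ∧ s.re < 1 ∧ 0 < s.im ∧ s.im ≤ T ∧ riemannZeta s = 0}

/-- the multiplicity of `s` as a zero of `ζ` -/
noncomputable def mult (s : ℂ) : ℕ := analyticOrderNatAt riemannZeta s

/-- `F(α, T) = (T/2π log T)⁻¹ ∑_{γ, γ'} T^(iα(γ-γ')) w(γ-γ')`, `w(u) = 4/(4+u²)`,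
zeros with multiplicity -/
noncomputable def F (α T : ℝ) : ℂ :=
  ((T / (2 * Real.pi) * Real.log T : ℝ) : ℂ)⁻¹ *
    ∑ᶠ s ∈ zeros T, ∑ᶠ s' ∈ zeros T, (mult s : ℂ) * (mult s' : ℂ) *
      ((T : ℂ) ^ (I * α * (s.im - s'.im)) * (4 / (4 + (s.im - s'.im : ℂ) ^ 2)))

lemma zeros_finite (T : ℝ) : (zeros T).Finite := H370.zeta_zeros_finite T

/-- `F` in terms of the numerator `Wp` -/
lemma F_eq (hRH : RiemannHypothesis) (α T : ℝ) (hT : 1 < T) :
    F α T = ((H332B.Wp T (α * Real.log T) / H332B.X T : ℝ) : ℂ) := by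
  have hT0 : (0 : ℝ) < T := by linarith
  have hTc : (T : ℂ) ≠ 0 := by exact_mod_cast hT0.ne'
  -- the sum
  set S : ℂ := ∑ s ∈ H343.ZSide.Z0 T, ∑ s' ∈ H343.ZSide.Z0 T, (mult s : ℂ) * (mult s' : ℂ) *
      ((T : ℂ) ^ (I * α * (s.im - s'.im)) * (4 / (4 + (s.im - s'.im : ℂ) ^ 2))) with hS
  have hF : F α T = ((T / (2 * Real.pi) * Real.log T : ℝ) : ℂ)⁻¹ * S := by
    unfold F
    congr 1
    rw [finsum_mem_eq_finite_toFinset_sum _ (zeros_finite T)]
    apply Finset.sum_congr rfl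
    intro s _
    rw [finsum_mem_eq_finite_toFinset_sum _ (zeros_finite T)]
    rfl
  have hterm : ∀ s s' : ℂ, (mult s : ℂ) * (mult s' : ℂ) *
      ((T : ℂ) ^ (I * α * (s.im - s'.im)) * (4 / (4 + (s.im - s'.im : ℂ) ^ 2))) =
      ((H343.ZSide.mz s * H343.ZSide.mz s' * (4 / (4 + (s.im - s'.im) ^ 2)) : ℝ) : ℂ) *
        cexp (((α * Real.log T * (s.im - s'.im) : ℝ) : ℂ) * I) := by
    intro s s'
    rw [Complex.cpow_def_of_ne_zero hTc, ← Complex.ofReal_log hT0.le]
    unfold H343.ZSide.mz mult H370.mult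
    push_cast
    rw [show (Real.log T : ℂ) * (I * α * (s.im - s'.im)) =
      α * Real.log T * (s.im - s'.im) * I by ring]
    ring
  have hre : S.re = H332B.Wp T (α * Real.log T) := by
    rw [H332B.wpc hRH]
    unfold H332B.K2
    rw [hS, Complex.re_sum]
    apply Finset.sum_congr rfl
    intro s _
    rw [Complex.re_sum]
    apply Finset.sum_congr rfl
    intro s' _
    rw [hterm, Complex.re_ofReal_mul, Complex.exp_ofReal_mul_I_re]
    ring
  have him : S.im = 0 := by
    have h1 : S.im = ∑ s ∈ H343.ZSide.Z0 T, ∑ s' ∈ H343.ZSide.Z0 T,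
        H343.ZSide.mz s * H343.ZSide.mz s' * (4 / (4 + (s.im - s'.im) ^ 2)) *
          Real.sin (α * Real.log T * (s.im - s'.im)) := by
      rw [hS, Complex.im_sum]
      apply Finset.sum_congr rfl
      intro s _
      rw [Complex.im_sum]
      apply Finset.sum_congr rfl
      intro s' _
      rw [hterm, Complex.im_ofReal_mul, Complex.exp_ofReal_mul_I_im]
    have h2 : S.im = -S.im := by
      conv_lhs => rw [h1, Finset.sum_comm]
      rw [h1, ← Finset.sum_neg_distrib]
      apply Finset.sum_congr rfl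
      intro s _
      rw [← Finset.sum_neg_distrib]
      apply Finset.sum_congr rfl
      intro s' _
      rw [show α * Real.log T * (s'.im - s.im) = -(α * Real.log T * (s.im - s'.im)) by ring,
        Real.sin_neg, show (s'.im - s.im) ^ 2 = (s.im - s'.im) ^ 2 by ring]
      ring
    linarith
  have hSr : S = ((H332B.Wp T (α * Real.log T) : ℝ) : ℂ) := by
    apply Complex.ext
    · rw [hre, Complex.ofReal_re]
    · rw [him, Complex.ofReal_im]
  rw [hF, hSr, ← Complex.ofReal_inv, ← Complex.ofReal_mul]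
  congr 1
  unfold H332B.X
  have hlog : 0 < Real.log T := Real.log_pos hT
  have := Real.pi_pos
  field_simp

/-- Under RH the averages of Montgomery's function over long intervals are at most `1.317`. -/
theorem result (hRH : RiemannHypothesis) : ∃ C T0 : ℝ, ∀ T b ℓ : ℝ, T0 ≤ T → 0 ≤ ℓ →
    (∀ α : ℝ, (F α T).im = 0) ∧
    IntervalIntegrable (fun α => (F α T).re) volume b (b + ℓ) ∧
    ∫ α in b..(b + ℓ), (F α T).re ≤ 1317 / 1000 * ℓ + C := by
  obtain ⟨C, T1, hC, h⟩ := H332B.avg hRH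
  refine ⟨C, max T1 2, fun T b ℓ hT hℓ => ?_⟩
  have hT1 : T1 ≤ T := (le_max_left _ _).trans hT
  have hT2 : 2 ≤ T := (le_max_right _ _).trans hT
  have hT3 : 1 < T := by linarith
  have hlog : 0 < Real.log T := Real.log_pos hT3
  have hX : 0 < H332B.X T := by
    unfold H332B.X
    have := Real.pi_pos
    positivity
  have e : ∀ α : ℝ, (F α T).re = (H332B.X T)⁻¹ * H332B.Wp T (α * Real.log T) := by
    intro α
    rw [F_eq hRH α T hT3, Complex.ofReal_re]
    ring
  have hcont : Continuous (fun α : ℝ => H332B.Wp T (α * Real.log T)) := by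
    simp_rw [H332B.wpc hRH]
    unfold H332B.K2
    fun_prop
  refine ⟨fun α => ?_, ?_, ?_⟩
  · rw [F_eq hRH α T hT3, Complex.ofReal_im]
  · simp_rw [e]
    exact (continuous_const.mul hcont).intervalIntegrable _ _
  · simp_rw [e]
    rw [intervalIntegral.integral_const_mul, inv_mul_le_iff₀ hX, mul_comm]
    exact h T b ℓ hT1 hℓ

end Pool.Agent.Results.MP_00e05b_nt.LongAverages
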